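import Mathlib

/-!
# MP_2a1065_lc: exponentially long best-response paths in budgeted sharing games
-/

set_option autoImplicit false

namespace Pool.Agent.Results.MP_2a1065_lc.ExponentialPath

open Finset

/-- An instance of the budgeted sharing game with agents `U` and sites `H`. -/
structure Game (U H : Type) where
  /-- The sites an agent is interested in. -/
  interested : U → Finset H
  /-- The query rate of a site. -/
  rate : H → ℝ
  /-- The cost of a site. -/
  cost : H → ℝ
  /-- The budget of an agent. -/
  budget : U → ℝ
  rate_pos : ∀ i, 0 < rate i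
  cost_pos : ∀ i, 0 < cost i
  budget_pos : ∀ j, 0 < budget j

variable {U H : Type} [Fintype U] [DecidableEq U] [DecidableEq H]

/-- The feasible strategies of agent `j`. -/
def Feasible (G : Game U H) (j : U) (s : Finset H) : Prop :=
  s ⊆ G.interested j ∧ ∑ i ∈ s, G.cost i ≤ G.budget j

/-- The number of agents that serve site `i` in the state `S`. -/
def load (S : U → Finset H) (i : H) : ℕ := #{j | i ∈ S j}

/-- What agent `j` receives in the state `S`. -/
noncomputable def payoff (G : Game U H) (S : U → Finset H) (j : U) : ℝ :=
  ∑ i ∈ S j, G.rate i / load S i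

/-- A best-response move which strictly increases what the moving agent receives. -/
def BestResponseMove (G : Game U H) (S S' : U → Finset H) : Prop :=
  ∃ (j : U) (s : Finset H), Feasible G j s ∧ S' = Function.update S j s ∧
    (∀ t, Feasible G j t → payoff G (Function.update S j t) j ≤ payoff G S' j) ∧
    payoff G S j < payoff G S' j

/-- The states `path 0, …, path L` form a best-response path of length `L`. -/
def IsPath (G : Game U H) (L : ℕ) (path : ℕ → U → Finset H) : Prop :=
  (∀ t ≤ L, ∀ j, Feasible G j (path t j)) ∧ ∀ t < L, BestResponseMove G (path t) (path (t + 1))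

/-! ### Paths of a relation -/

/-- There is a path of length `n` from `x` to `y`. -/
def Reach {α : Type} (R : α → α → Prop) (n : ℕ) (x y : α) : Prop :=
  ∃ p : ℕ → α, p 0 = x ∧ p n = y ∧ ∀ t < n, R (p t) (p (t + 1))

theorem Reach.refl {α : Type} (R : α → α → Prop) (x : α) : Reach R 0 x x :=
  ⟨fun _ => x, rfl, rfl, fun t ht => absurd ht (Nat.not_lt_zero t)⟩

theorem Reach.single {α : Type} {R : α → α → Prop} {x y : α} (h : R x y) : Reach R 1 x y := by
  refine ⟨fun t => if t = 0 then x else y, by simp, by simp, fun t ht => ?_⟩
  have : t = 0 := by omega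
  subst this
  simpa using h

theorem Reach.trans {α : Type} {R : α → α → Prop} {n m : ℕ} {x y z : α} (h : Reach R n x y)
    (h' : Reach R m y z) : Reach R (n + m) x z := by
  obtain ⟨p, hp0, hpn, hp⟩ := h
  obtain ⟨q, hq0, hqm, hq⟩ := h'
  refine ⟨fun t => if t < n then p t else q (t - n), ?_, ?_, ?_⟩
  · by_cases hn : n = 0
    · subst hn
      simp only [Nat.lt_irrefl, if_false, Nat.sub_zero]
      rw [hq0, ← hpn, hp0]
    · simp only [Nat.pos_of_ne_zero hn, if_true]
      exact hp0
  · simp [hqm]
  · intro t ht
    simp only
    by_cases h1 : t + 1 < n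
    · rw [if_pos (by omega), if_pos h1]
      exact hp t (by omega)
    · by_cases h2 : t < n
      · rw [if_pos h2, if_neg h1]
        have h3 : t + 1 = n := by omega
        have h4 : t + 1 - n = 0 := by omega
        rw [h4, hq0, ← hpn, ← h3]
        exact hp t h2
      · rw [if_neg h2, if_neg h1]
        have h4 : t + 1 - n = (t - n) + 1 := by omega
        rw [h4]
        exact hq (t - n) (by omega)

/-! ### Games in which every agent has two strategies -/

/-- The data of a game with two strategies for every agent: agent `v` chooses between its site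
`(v, false)` and the set of its site `(v, true)` and the sites `out v`. -/
structure Two (U : Type) [DecidableEq U] where
  /-- The additional sites of an agent. -/
  out : U → Finset (U × Bool)
  /-- The scale of an agent. -/
  scale : U → ℝ
  scale_pos : ∀ v, 0 < scale v
  out_card : ∀ v, #(out v) ≤ 3
  out_scale : ∀ v, ∀ z ∈ out v, 36 * scale z.1 ≤ scale v

namespace Two

variable {U : Type} [Fintype U] [DecidableEq U] (T : Two U)

set_option linter.unusedSectionVars false

theorem out_ne {v : U} {z : U × Bool} (hz : z ∈ T.out v) : z.1 ≠ v := by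
  intro h
  have h1 := T.out_scale v z hz
  rw [h] at h1
  have h2 := T.scale_pos v
  linarith

/-- The game. -/
noncomputable def game : Game U (U × Bool) where
  interested v := insert (v, false) (insert (v, true) (T.out v))
  rate z := if z.2 then 2 * T.scale z.1 else 3 * T.scale z.1
  cost z := if z.2 then T.scale z.1 else 2 * T.scale z.1
  budget v := 2 * T.scale v
  rate_pos z := by
    have := T.scale_pos z.1
    split_ifs <;> linarith
  cost_pos z := by
    have := T.scale_pos z.1
    split_ifs <;> linarith
  budget_pos v := by
    have := T.scale_pos v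
    linarith

/-- The second strategy. -/
def full (v : U) : Finset (U × Bool) := insert (v, true) (T.out v)

/-- The strategy chosen by the Boolean state `x`. -/
def strat (x : U → Bool) (v : U) : Finset (U × Bool) := if x v then T.full v else {(v, false)}

theorem sum_out_le (v : U) (f : U × Bool → ℝ) (c : ℝ) (hc : 0 ≤ c)
    (hf : ∀ z ∈ T.out v, f z ≤ c * T.scale z.1) : ∑ z ∈ T.out v, f z ≤ c * T.scale v / 12 := by
  have h1 : ∀ z ∈ T.out v, f z ≤ c * T.scale v / 36 := by
    intro z hz
    have h2 := T.out_scale v z hz
    have h3 := hf z hz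
    have h4 : c * (36 * T.scale z.1) ≤ c * T.scale v := mul_le_mul_of_nonneg_left h2 hc
    linarith
  have h2 := Finset.sum_le_card_nsmul (T.out v) f _ h1
  have h3 : (#(T.out v) : ℝ) ≤ 3 := by exact_mod_cast T.out_card v
  have h4 : 0 ≤ c * T.scale v / 36 := by
    have := T.scale_pos v
    positivity
  rw [nsmul_eq_mul] at h2
  have h5 : (#(T.out v) : ℝ) * (c * T.scale v / 36) ≤ 3 * (c * T.scale v / 36) :=
    mul_le_mul_of_nonneg_right h3 h4
  linarith

theorem not_mem_out_self (v : U) (b : Bool) : (v, b) ∉ T.out v := fun h => T.out_ne h rfl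

theorem feasible_single (v : U) : Feasible T.game v {(v, false)} := by
  refine ⟨by simp [game], ?_⟩
  simp [game]

theorem feasible_full (v : U) : Feasible T.game v (T.full v) := by
  refine ⟨?_, ?_⟩
  · intro z hz
    exact Finset.mem_insert_of_mem hz
  · rw [full, Finset.sum_insert (T.not_mem_out_self v true)]
    have h1 := T.sum_out_le v T.game.cost 2 (by norm_num) (by
      intro z _
      have := T.scale_pos z.1
      simp only [game]
      split_ifs <;> linarith)
    have h2 : T.game.cost (v, true) = T.scale v := by simp [game]
    have h3 : T.game.budget v = 2 * T.scale v := rfl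
    have h4 := T.scale_pos v
    rw [h2, h3]
    linarith

theorem feasible_strat (x : U → Bool) (v : U) : Feasible T.game v (T.strat x v) := by
  unfold strat
  split_ifs
  · exact T.feasible_full v
  · exact T.feasible_single v

theorem feasible_cases (v : U) (t : Finset (U × Bool)) (ht : Feasible T.game v t) :
    t = {(v, false)} ∨ t ⊆ T.full v := by
  by_cases ha : (v, false) ∈ t
  · left
    by_contra hne
    obtain ⟨z, hz, hzne⟩ : ∃ z ∈ t, z ≠ (v, false) := by
      by_contra hcon
      push Not at hcon
      apply hne
      ext z
      rw [Finset.mem_singleton]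
      exact ⟨fun h => hcon z h, fun h => h ▸ ha⟩
    have h1 : ({(v, false), z} : Finset (U × Bool)) ⊆ t := by
      intro w hw
      rw [Finset.mem_insert, Finset.mem_singleton] at hw
      rcases hw with rfl | rfl
      · exact ha
      · exact hz
    have h2 : ∑ i ∈ ({(v, false), z} : Finset (U × Bool)), T.game.cost i ≤
        ∑ i ∈ t, T.game.cost i :=
      Finset.sum_le_sum_of_subset_of_nonneg h1 fun i _ _ => (T.game.cost_pos i).le
    rw [Finset.sum_pair (Ne.symm hzne)] at h2
    have h3 := ht.2
    have h4 : T.game.cost (v, false) = 2 * T.scale v := by simp [game]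
    have h5 : T.game.budget v = 2 * T.scale v := rfl
    have h6 := T.game.cost_pos z
    rw [h4] at h2
    rw [h5] at h3
    linarith
  · right
    intro z hz
    have h1 := ht.1 hz
    simp only [game, Finset.mem_insert] at h1
    rcases h1 with rfl | rfl | h1
    · exact absurd hz ha
    · exact Finset.mem_insert_self _ _
    · exact Finset.mem_insert_of_mem h1

/-- The number of agents other than `v` that serve `z`. -/
def others (S : U → Finset (U × Bool)) (v : U) (z : U × Bool) : ℕ := #{w | w ≠ v ∧ z ∈ S w}

theorem load_update (S : U → Finset (U × Bool)) (v : U) (t : Finset (U × Bool)) (z : U × Bool)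
    (hz : z ∈ t) : load (Function.update S v t) z = others S v z + 1 := by
  unfold load others
  rw [← Finset.card_erase_add_one (a := v)]
  · congr 2
    ext w
    simp only [Finset.mem_erase, Finset.mem_filter, Finset.mem_univ, true_and]
    constructor
    · rintro ⟨h1, h2⟩
      rw [Function.update_of_ne h1] at h2
      exact ⟨h1, h2⟩
    · rintro ⟨h1, h2⟩
      rw [Function.update_of_ne h1]
      exact ⟨h1, h2⟩
  · simp [hz]

/-- The value of the set `t` for `v`. -/
noncomputable def value (S : U → Finset (U × Bool)) (v : U) (t : Finset (U × Bool)) : ℝ :=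
  ∑ z ∈ t, T.game.rate z / (others S v z + 1 : ℕ)

theorem payoff_update (S : U → Finset (U × Bool)) (v : U) (t : Finset (U × Bool)) :
    payoff T.game (Function.update S v t) v = T.value S v t := by
  unfold payoff value
  rw [Function.update_self]
  exact Finset.sum_congr rfl fun z hz => by rw [load_update S v t z hz]

theorem term_nonneg (S : U → Finset (U × Bool)) (v : U) (z : U × Bool) :
    0 ≤ T.game.rate z / (others S v z + 1 : ℕ) :=
  div_nonneg (T.game.rate_pos z).le (Nat.cast_nonneg _)

theorem value_le (S : U → Finset (U × Bool)) (v : U) (t : Finset (U × Bool))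
    (ht : Feasible T.game v t) :
    T.value S v t ≤ max (T.value S v {(v, false)}) (T.value S v (T.full v)) := by
  rcases T.feasible_cases v t ht with rfl | h
  · exact le_max_left _ _
  · refine le_trans ?_ (le_max_right _ _)
    exact Finset.sum_le_sum_of_subset_of_nonneg h fun z _ _ => T.term_nonneg S v z

theorem value_single (S : U → Finset (U × Bool)) (v : U) :
    T.value S v {(v, false)} = 3 * T.scale v / (others S v (v, false) + 1 : ℕ) := by
  simp [value, game]

theorem value_full_ge (S : U → Finset (U × Bool)) (v : U) :
    2 * T.scale v / (others S v (v, true) + 1 : ℕ) ≤ T.value S v (T.full v) := by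
  unfold value full
  rw [Finset.sum_insert (T.not_mem_out_self v true)]
  have h1 : T.game.rate (v, true) = 2 * T.scale v := by simp [game]
  rw [h1]
  have h2 : 0 ≤ ∑ z ∈ T.out v, T.game.rate z / (others S v z + 1 : ℕ) :=
    Finset.sum_nonneg fun z _ => T.term_nonneg S v z
  linarith

theorem value_full_le (S : U → Finset (U × Bool)) (v : U) :
    T.value S v (T.full v) ≤ 2 * T.scale v / (others S v (v, true) + 1 : ℕ) + T.scale v / 4 := by
  unfold value full
  rw [Finset.sum_insert (T.not_mem_out_self v true)]
  have h1 : T.game.rate (v, true) = 2 * T.scale v := by simp [game]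
  rw [h1]
  have h2 := T.sum_out_le v (fun z => T.game.rate z / (others S v z + 1 : ℕ)) 3 (by norm_num) (by
    intro z _
    have h3 : T.game.rate z ≤ 3 * T.scale z.1 := by
      have := T.scale_pos z.1
      simp only [game]
      split_ifs <;> linarith
    refine le_trans ?_ h3
    apply div_le_self (T.game.rate_pos z).le
    have : (1 : ℝ) ≤ ((others S v z + 1 : ℕ) : ℝ) := by
      exact_mod_cast Nat.succ_le_succ (Nat.zero_le _)
    exact this)
  linarith

/-- The number of agents that serve the first site of `v`, apart from `v`. -/
def nA (x : U → Bool) (v : U) : ℕ := #{w | x w = true ∧ (v, false) ∈ T.out w}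

/-- The number of agents that serve the second site of `v`, apart from `v`. -/
def nB (x : U → Bool) (v : U) : ℕ := #{w | x w = true ∧ (v, true) ∈ T.out w}

theorem others_false (x : U → Bool) (v : U) : others (T.strat x) v (v, false) = T.nA x v := by
  unfold others nA
  congr 1
  ext w
  simp only [Finset.mem_filter, Finset.mem_univ, true_and]
  constructor
  · rintro ⟨h1, h2⟩
    unfold strat at h2
    split_ifs at h2 with h3
    · rw [full, Finset.mem_insert] at h2
      rcases h2 with h2 | h2
      · simp at h2
      · exact ⟨h3, h2⟩
    · rw [Finset.mem_singleton] at h2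
      exact absurd (congrArg Prod.fst h2).symm h1
  · rintro ⟨h1, h2⟩
    refine ⟨fun h => T.out_ne h2 h.symm, ?_⟩
    rw [strat, if_pos h1, full]
    exact Finset.mem_insert_of_mem h2

theorem others_true (x : U → Bool) (v : U) : others (T.strat x) v (v, true) = T.nB x v := by
  unfold others nB
  congr 1
  ext w
  simp only [Finset.mem_filter, Finset.mem_univ, true_and]
  constructor
  · rintro ⟨h1, h2⟩
    unfold strat at h2
    split_ifs at h2 with h3
    · rw [full, Finset.mem_insert] at h2
      rcases h2 with h2 | h2
      · exact absurd (congrArg Prod.fst h2).symm h1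
      · exact ⟨h3, h2⟩
    · rw [Finset.mem_singleton] at h2
      simp at h2
  · rintro ⟨h1, h2⟩
    refine ⟨fun h => T.out_ne h2 h.symm, ?_⟩
    rw [strat, if_pos h1, full]
    exact Finset.mem_insert_of_mem h2

/-- A step of the Boolean dynamics. -/
def Step (x x' : U → Bool) : Prop :=
  ∃ v, (x v = false ∧ T.nA x v = 1 ∧ T.nB x v = 0 ∧ x' = Function.update x v true) ∨
    (x v = true ∧ T.nA x v = T.nB x v ∧ T.nA x v ≤ 1 ∧ x' = Function.update x v false)

theorem strat_update (x : U → Bool) (v : U) (b : Bool) :
    T.strat (Function.update x v b) =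
      Function.update (T.strat x) v (if b then T.full v else {(v, false)}) := by
  funext w
  by_cases hw : w = v
  · subst hw
    simp [strat]
  · simp [strat, hw]

theorem Step.move {x x' : U → Bool} (h : T.Step x x') :
    BestResponseMove T.game (T.strat x) (T.strat x') := by
  obtain ⟨v, ⟨hx, hA, hB, rfl⟩ | ⟨hx, hAB, hA, rfl⟩⟩ := h
  · have e1 : T.strat (Function.update x v true) =
        Function.update (T.strat x) v (T.full v) := by
      rw [strat_update]
      simp
    have e2 : T.strat x = Function.update (T.strat x) v {(v, false)} := by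
      rw [eq_comm, Function.update_eq_self_iff]
      simp [strat, hx]
    have hs := T.scale_pos v
    have hlt : T.value (T.strat x) v {(v, false)} < T.value (T.strat x) v (T.full v) := by
      refine lt_of_lt_of_le ?_ (T.value_full_ge (T.strat x) v)
      rw [value_single, others_false, others_true, hA, hB]
      norm_num
      linarith
    refine ⟨v, T.full v, T.feasible_full v, e1, ?_, ?_⟩
    · intro t ht
      rw [e1, payoff_update, payoff_update]
      refine (T.value_le (T.strat x) v t ht).trans ?_
      rw [max_eq_right hlt.le]
    · rw [e1, payoff_update]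
      conv_lhs => rw [e2]
      rw [payoff_update]
      exact hlt
  · have e1 : T.strat (Function.update x v false) =
        Function.update (T.strat x) v {(v, false)} := by
      rw [strat_update]
      simp
    have e2 : T.strat x = Function.update (T.strat x) v (T.full v) := by
      rw [eq_comm, Function.update_eq_self_iff]
      simp [strat, hx]
    have hs := T.scale_pos v
    have hlt : T.value (T.strat x) v (T.full v) < T.value (T.strat x) v {(v, false)} := by
      refine lt_of_le_of_lt (T.value_full_le (T.strat x) v) ?_
      rw [value_single, others_false, others_true, ← hAB]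
      have h01 : T.nA x v = 0 ∨ T.nA x v = 1 := by omega
      rcases h01 with h | h <;> rw [h] <;> norm_num <;> linarith
    refine ⟨v, {(v, false)}, T.feasible_single v, e1, ?_, ?_⟩
    · intro t ht
      rw [e1, payoff_update, payoff_update]
      refine (T.value_le (T.strat x) v t ht).trans ?_
      rw [max_eq_left hlt.le]
    · rw [e1, payoff_update]
      conv_lhs => rw [e2]
      rw [payoff_update]
      exact hlt

theorem exists_path {n : ℕ} {x y : U → Bool} (h : Reach T.Step n x y) :
    ∃ path : ℕ → U → Finset (U × Bool), IsPath T.game n path := by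
  obtain ⟨p, -, -, hp⟩ := h
  exact ⟨fun t => T.strat (p t), fun t _ j => T.feasible_strat _ j, fun t ht => (hp t ht).move⟩

end Two

/-! ### The cascade -/

section Cascade

variable {k : ℕ}

/-- Agent `v` influences agent `w`. -/
def Tgt (v w : Fin k × Fin 3) : Prop :=
  (v.2 = 0 ∧ w.1 = v.1 ∧ w.2 ≠ 0) ∨ (v.2 ≠ 0 ∧ w.1.val = v.1.val + 1)

instance (v w : Fin k × Fin 3) : Decidable (Tgt v w) := by
  unfold Tgt
  infer_instance

/-- The site of `w` which `v` also serves. -/
def side (v w : Fin k × Fin 3) : Bool := if v.2 = 0 then decide (w.2 = 1) else decide (w.2 = 2)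

/-- The additional sites of `v`. -/
def cout (v : Fin k × Fin 3) : Finset ((Fin k × Fin 3) × Bool) :=
  (Finset.univ.filter (Tgt v)).image fun w => (w, side v w)

theorem mem_cout {v w : Fin k × Fin 3} {b : Bool} :
    (w, b) ∈ cout v ↔ Tgt v w ∧ side v w = b := by
  simp only [cout, Finset.mem_image, Finset.mem_filter, Finset.mem_univ, true_and,
    Prod.mk.injEq]
  constructor
  · rintro ⟨a, h1, h2, h3⟩
    subst h2
    exact ⟨h1, h3⟩
  · rintro ⟨h1, h2⟩
    exact ⟨w, h1, rfl, h2⟩

/-- The scale of an agent. -/
noncomputable def cscale (v : Fin k × Fin 3) : ℝ :=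
  (1 / 36 : ℝ) ^ (if v.2 = 0 then 2 * v.1.val else 2 * v.1.val + 1)

/-- The cascade with `k` levels. -/
noncomputable def cascade (k : ℕ) : Two (Fin k × Fin 3) where
  out := cout
  scale := cscale
  scale_pos v := by
    unfold cscale
    positivity
  out_card v := by
    refine (Finset.card_image_le).trans ?_
    have h : #(Finset.univ.filter (Tgt v)) ≤ #(Finset.univ : Finset (Fin 3)) := by
      refine Finset.card_le_card_of_injOn Prod.snd (fun _ _ => Finset.mem_univ _) ?_
      rintro ⟨i, r⟩ h1 ⟨j, s⟩ h2 h3
      simp only [Finset.coe_filter, Finset.mem_univ, true_and, Set.mem_ofPred_eq] at h1 h2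
      simp only at h3
      subst h3
      have : i = j := by
        rcases h1 with ⟨h4, h5, -⟩ | ⟨h4, h5⟩ <;> rcases h2 with ⟨h6, h7, -⟩ | ⟨h6, h7⟩
        · exact h5.trans h7.symm
        · exact absurd h4 h6
        · exact absurd h6 h4
        · exact Fin.ext (h5.trans h7.symm)
      rw [this]
    simpa using h
  out_scale v z hz := by
    obtain ⟨w, b⟩ := z
    rw [mem_cout] at hz
    obtain ⟨h1, -⟩ := hz
    have key : ∀ a b : ℕ, b + 1 ≤ a → 36 * (1 / 36 : ℝ) ^ a ≤ (1 / 36 : ℝ) ^ b := by
      intro a b hab
      have h2 : (1 / 36 : ℝ) ^ a ≤ (1 / 36 : ℝ) ^ (b + 1) :=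
        pow_le_pow_of_le_one (by norm_num) (by norm_num) hab
      rw [pow_succ] at h2
      linarith
    apply key
    simp only
    rcases h1 with ⟨h2, h3, h4⟩ | ⟨h2, h3⟩
    · rw [if_pos h2, if_neg h4, h3]
    · rw [if_neg h2]
      split_ifs <;> omega

/-- The number of active agents whose influence arrives at level `i`. -/
def inp (x : Fin k × Fin 3 → Bool) (i : ℕ) : ℕ :=
  #{w : Fin k × Fin 3 | x w = true ∧ w.1.val + 1 = i ∧ w.2 ≠ 0}

theorem nA_zero (x : Fin k × Fin 3 → Bool) (i : Fin k) :
    (cascade k).nA x (i, 0) = inp x i.val := by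
  unfold Two.nA inp
  congr 1
  ext w
  simp only [Finset.mem_filter, Finset.mem_univ, true_and, cascade, mem_cout, Tgt, side]
  constructor
  · rintro ⟨h1, ⟨-, -, h2⟩ | ⟨h2, h3⟩, -⟩
    · exact absurd rfl h2
    · exact ⟨h1, h3.symm, h2⟩
  · rintro ⟨h1, h2, h3⟩
    exact ⟨h1, Or.inr ⟨h3, h2.symm⟩, by rw [if_neg h3]; rfl⟩

theorem nB_zero (x : Fin k × Fin 3 → Bool) (i : Fin k) : (cascade k).nB x (i, 0) = 0 := by
  unfold Two.nB
  rw [Finset.card_eq_zero, Finset.filter_eq_empty_iff]
  intro w _
  simp only [cascade, mem_cout, Tgt, side]
  rintro ⟨h1, ⟨-, -, h2⟩ | ⟨h2, h3⟩, h4⟩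
  · exact absurd rfl h2
  · rw [if_neg h2] at h4
    simp at h4

theorem card_filter_eq_one {α : Type} [Fintype α] [DecidableEq α] (p : α → Prop)
    [DecidablePred p] (a : α) (h : ∀ w, p w ↔ w = a) : #{w | p w} = 1 := by
  rw [Finset.card_eq_one]
  exact ⟨a, by ext w; simp [h w]⟩

theorem nA_one (x : Fin k × Fin 3 → Bool) (i : Fin k) :
    (cascade k).nA x (i, 1) = inp x i.val := by
  unfold Two.nA inp
  congr 1
  ext w
  simp only [Finset.mem_filter, Finset.mem_univ, true_and, cascade, mem_cout, Tgt, side]
  constructor
  · rintro ⟨h1, ⟨h2, -, -⟩ | ⟨h2, h3⟩, h4⟩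
    · rw [if_pos h2] at h4
      simp at h4
    · exact ⟨h1, h3.symm, h2⟩
  · rintro ⟨h1, h2, h3⟩
    exact ⟨h1, Or.inr ⟨h3, h2.symm⟩, by rw [if_neg h3]; rfl⟩

theorem nB_one (x : Fin k × Fin 3 → Bool) (i : Fin k) :
    (cascade k).nB x (i, 1) = if x (i, 0) = true then 1 else 0 := by
  unfold Two.nB
  split_ifs with h
  · apply card_filter_eq_one _ (i, 0)
    rintro ⟨j, r⟩
    simp only [cascade, mem_cout, Tgt, side]
    constructor
    · rintro ⟨h1, ⟨h2, h3, -⟩ | ⟨h2, h3⟩, h4⟩
      · rw [h2, h3]
      · rw [if_neg h2] at h4
        simp at h4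
    · intro h1
      rw [Prod.mk.injEq] at h1
      obtain ⟨rfl, rfl⟩ := h1
      exact ⟨h, Or.inl ⟨rfl, rfl, by decide⟩, by simp⟩
  · rw [Finset.card_eq_zero, Finset.filter_eq_empty_iff]
    rintro ⟨j, r⟩ _
    simp only [cascade, mem_cout, Tgt, side]
    rintro ⟨h1, ⟨h2, h3, -⟩ | ⟨h2, h3⟩, h4⟩
    · subst h2 h3
      exact h h1
    · rw [if_neg h2] at h4
      simp at h4

theorem nB_two (x : Fin k × Fin 3 → Bool) (i : Fin k) :
    (cascade k).nB x (i, 2) = inp x i.val := by
  unfold Two.nB inp
  congr 1
  ext w
  simp only [Finset.mem_filter, Finset.mem_univ, true_and, cascade, mem_cout, Tgt, side]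
  constructor
  · rintro ⟨h1, ⟨h2, -, -⟩ | ⟨h2, h3⟩, h4⟩
    · rw [if_pos h2] at h4
      simp at h4
    · exact ⟨h1, h3.symm, h2⟩
  · rintro ⟨h1, h2, h3⟩
    exact ⟨h1, Or.inr ⟨h3, h2.symm⟩, by rw [if_neg h3]; rfl⟩

theorem nA_two (x : Fin k × Fin 3 → Bool) (i : Fin k) :
    (cascade k).nA x (i, 2) = if x (i, 0) = true then 1 else 0 := by
  unfold Two.nA
  split_ifs with h
  · apply card_filter_eq_one _ (i, 0)
    rintro ⟨j, r⟩
    simp only [cascade, mem_cout, Tgt, side]
    constructor
    · rintro ⟨h1, ⟨h2, h3, -⟩ | ⟨h2, h3⟩, h4⟩
      · rw [h2, h3]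
      · rw [if_neg h2] at h4
        simp at h4
    · intro h1
      rw [Prod.mk.injEq] at h1
      obtain ⟨rfl, rfl⟩ := h1
      exact ⟨h, Or.inl ⟨rfl, rfl, by decide⟩, by simp⟩
  · rw [Finset.card_eq_zero, Finset.filter_eq_empty_iff]
    rintro ⟨j, r⟩ _
    simp only [cascade, mem_cout, Tgt, side]
    rintro ⟨h1, ⟨h2, h3, -⟩ | ⟨h2, h3⟩, h4⟩
    · subst h2 h3
      exact h h1
    · rw [if_neg h2] at h4
      simp at h4

/-- The state which agrees with `x` below level `i`, and in which the first agent of level `i` has
the value `y` and all other agents are off. -/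
def settled (x : Fin k × Fin 3 → Bool) (i : ℕ) (y : Bool) : Fin k × Fin 3 → Bool :=
  fun w => if w.1.val < i then x w else if w.1.val = i ∧ w.2 = 0 then y else false

theorem inp_congr (x x' : Fin k × Fin 3 → Bool) (i : ℕ) (h : ∀ w, w.1.val < i → x w = x' w) :
    inp x i = inp x' i := by
  unfold inp
  congr 1
  ext w
  simp only [Finset.mem_filter, Finset.mem_univ, true_and]
  constructor
  · rintro ⟨h1, h2, h3⟩
    exact ⟨by rw [← h w (by omega)]; exact h1, h2, h3⟩
  · rintro ⟨h1, h2, h3⟩
    exact ⟨by rw [h w (by omega)]; exact h1, h2, h3⟩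

/-- The lengths of the runs. -/
def len : ℕ → ℕ
  | 0 => 0
  | d + 1 => len d + len d + 3

theorem run (d : ℕ) : ∀ (i : ℕ) (x : Fin k × Fin 3 → Bool) (u : Bool), i + d = k →
    inp x i = (if u then 1 else 0) →
    Reach (cascade k).Step (len d) (settled x i (!u)) (settled x i u) := by
  induction d with
  | zero =>
    intro i x u hi _
    have h : ∀ y, settled x i y = x := by
      intro y
      funext w
      have := w.1.isLt
      rw [settled, if_pos (by omega)]
    rw [h, h]
    exact Reach.refl _ _
  | succ d ih =>
    intro i x u hi hu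
    have hik : i < k := by omega
    -- the agent that turns on and off
    obtain ⟨r, hr0, hr⟩ : ∃ r : Fin 3, r ≠ 0 ∧ r = if u then 1 else 2 :=
      ⟨if u then 1 else 2, by cases u <;> decide, rfl⟩
    let I : Fin k := ⟨i, hik⟩
    let x0 : Fin k × Fin 3 → Bool := settled x i (!u)
    let x1 := Function.update x0 (I, r) true
    let x2 := settled x1 (i + 1) true
    let x3 := Function.update x2 (I, 0) u
    let x4 := Function.update x3 (I, r) false
    have hI0r : ((I, (0 : Fin 3)) : Fin k × Fin 3) ≠ (I, r) := by
      intro h
      exact hr0 (congrArg Prod.snd h).symm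
    -- values of the states
    have v0 : ∀ w : Fin k × Fin 3, w.1.val < i → x0 w = x w := by
      intro w hw
      simp only [x0, settled, if_pos hw]
    have v0' : x0 (I, 0) = !u := by simp [x0, settled, I]
    have v0r : x0 (I, r) = false := by simp [x0, settled, I, hr0]
    have v1 : ∀ w : Fin k × Fin 3, w.1.val < i → x1 w = x w := by
      intro w hw
      have : w ≠ (I, r) := by
        rintro rfl
        simp [I] at hw
      simp only [x1, Function.update_of_ne this]
      exact v0 w hw
    have v1r : x1 (I, r) = true := by simp [x1]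
    have v10 : x1 (I, 0) = !u := by
      simp only [x1, Function.update_of_ne hI0r]
      exact v0'
    have v2 : ∀ w : Fin k × Fin 3, w.1.val < i + 1 → x2 w = x1 w := by
      intro w hw
      simp only [x2, settled, if_pos hw]
    have v3 : ∀ w : Fin k × Fin 3, w.1.val < i → x3 w = x w := by
      intro w hw
      have : w ≠ (I, 0) := by
        rintro rfl
        simp [I] at hw
      simp only [x3, Function.update_of_ne this]
      rw [v2 w (by omega), v1 w hw]
    have v3r : x3 (I, r) = true := by
      simp only [x3, Function.update_of_ne hI0r.symm]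
      rw [v2 _ (by simp [I]), v1r]
    have v30 : x3 (I, 0) = u := by simp [x3]
    -- inputs
    have i0 : inp x0 I.val = if u then 1 else 0 := by
      rw [← hu]
      exact inp_congr _ _ _ v0
    have i2 : inp x2 I.val = if u then 1 else 0 := by
      rw [← hu]
      exact inp_congr _ _ _ fun w hw => by rw [v2 w (lt_trans hw (Nat.lt_succ_self i)), v1 w hw]
    have i3 : inp x3 I.val = if u then 1 else 0 := by
      rw [← hu]
      exact inp_congr _ _ _ v3
    -- the steps
    have s1 : (cascade k).Step x0 x1 := by
      refine ⟨(I, r), Or.inl ⟨v0r, ?_, ?_, rfl⟩⟩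
      · cases u
        · simp only [Bool.false_eq_true, if_false] at hr
          subst hr
          rw [nA_two, v0']
          simp
        · simp only [if_true] at hr
          subst hr
          rw [nA_one, i0]
          simp
      · cases u
        · simp only [Bool.false_eq_true, if_false] at hr
          subst hr
          rw [nB_two, i0]
          simp
        · simp only [if_true] at hr
          subst hr
          rw [nB_one, v0']
          simp
    have s2 : (cascade k).Step x2 x3 := by
      have h20 : x2 (I, 0) = !u := by rw [v2 _ (by simp [I]), v10]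
      refine ⟨(I, 0), ?_⟩
      cases u
      · right
        refine ⟨by rw [h20]; rfl, ?_, ?_, rfl⟩
        · rw [nA_zero, nB_zero, i2]
          simp
        · rw [nA_zero, i2]
          simp
      · left
        refine ⟨by rw [h20]; rfl, ?_, ?_, rfl⟩
        · rw [nA_zero, i2]
          simp
        · rw [nB_zero]
    have s3 : (cascade k).Step x3 x4 := by
      refine ⟨(I, r), Or.inr ⟨v3r, ?_, ?_, rfl⟩⟩
      · cases u
        · simp only [Bool.false_eq_true, if_false] at hr
          subst hr
          rw [nA_two, nB_two, v30, i3]
        · simp only [if_true] at hr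
          subst hr
          rw [nA_one, nB_one, v30, i3]
      · cases u
        · simp only [Bool.false_eq_true, if_false] at hr
          subst hr
          rw [nA_two, v30]
          simp
        · simp only [if_true] at hr
          subst hr
          rw [nA_one, i3]
          simp
    -- the runs of the lower levels
    have e1 : settled x1 (i + 1) false = x1 := by
      funext w
      unfold settled
      split_ifs with h1 h2
      · rfl
      · have hw : w ≠ (I, r) := by
          rintro rfl
          simp [I] at h1
        simp only [x1, Function.update_of_ne hw, x0, settled]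
        rw [if_neg (by omega), if_neg (fun h => by have := h.1; omega)]
      · have hw : w ≠ (I, r) := by
          rintro rfl
          simp [I] at h1
        simp only [x1, Function.update_of_ne hw, x0, settled]
        rw [if_neg (by omega), if_neg (fun h => by have := h.1; omega)]
    have e4 : settled x4 (i + 1) true = x4 := by
      funext w
      by_cases h1 : w.1.val < i + 1
      · rw [settled, if_pos h1]
      · have hw : w ≠ (I, r) := by
          rintro rfl
          simp [I] at h1
        have hw0 : w ≠ (I, 0) := by
          rintro rfl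
          simp [I] at h1
        simp only [x4, Function.update_of_ne hw, x3, Function.update_of_ne hw0, x2]
        rw [settled, settled, if_neg h1, if_neg h1]
    have e5 : settled x4 (i + 1) false = settled x i u := by
      funext w
      by_cases h1 : w.1.val < i + 1
      · rw [settled, if_pos h1]
        by_cases h2 : w = (I, r)
        · subst h2
          simp [x4, settled, I, hr0]
        · simp only [x4, Function.update_of_ne h2]
          by_cases h3 : w = (I, 0)
          · subst h3
            rw [v30]
            simp [settled, I]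
          · simp only [x3, Function.update_of_ne h3]
            rw [v2 w h1]
            simp only [x1, Function.update_of_ne h2, x0]
            unfold settled
            split_ifs with h4 h5
            · rfl
            · exact absurd (Prod.ext (Fin.ext h5.1) h5.2) h3
            · rfl
      · rw [settled, settled, if_neg h1, if_neg (by omega : ¬ w.1.val < i),
          if_neg (fun h => by have := h.1; omega : ¬ (w.1.val = i ∧ w.2 = 0))]
        split_ifs <;> rfl
    have inp1 : inp x1 (i + 1) = 1 := by
      unfold inp
      apply card_filter_eq_one _ (I, r)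
      intro w
      constructor
      · rintro ⟨h1, h2, h3⟩
        by_contra hne
        simp only [x1, Function.update_of_ne hne, x0, settled] at h1
        rw [if_neg (by omega), if_neg (fun h => h3 h.2)] at h1
        exact absurd h1 (by decide)
      · rintro rfl
        exact ⟨v1r, rfl, hr0⟩
    have inp4 : inp x4 (i + 1) = 0 := by
      unfold inp
      rw [Finset.card_eq_zero, Finset.filter_eq_empty_iff]
      rintro w _ ⟨h1, h2, h3⟩
      by_cases hw : w = (I, r)
      · subst hw
        simp [x4] at h1
      · have hw0 : w ≠ (I, 0) := by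
          rintro rfl
          exact h3 rfl
        simp only [x4, Function.update_of_ne hw, x3, Function.update_of_ne hw0] at h1
        rw [v2 w (by omega)] at h1
        simp only [x1, Function.update_of_ne hw, x0, settled] at h1
        rw [if_neg (by omega), if_neg (fun h => h3 h.2)] at h1
        exact absurd h1 (by decide)
    have r1 := ih (i + 1) x1 true (by omega) (by rw [inp1]; simp)
    have r2 := ih (i + 1) x4 false (by omega) (by rw [inp4]; simp)
    simp only [Bool.not_true, Bool.not_false] at r1 r2
    rw [e1] at r1
    rw [e4, e5] at r2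
    have := (((Reach.single s1).trans r1).trans
      ((Reach.single s2).trans (Reach.single s3))).trans r2
    have hlen : 1 + len d + (1 + 1) + len d = len (d + 1) := by
      rw [len]
      omega
    rwa [hlen] at this

theorem len_eq (d : ℕ) : len d + 3 = 3 * 2 ^ d := by
  induction d with
  | zero => rfl
  | succ d ih =>
    rw [len, pow_succ]
    omega

end Cascade

/-- **Full answer to Q1.** There are a constant `c > 0` and instances with `n + m` arbitrarily large
which admit a best-response path of length at least `2 ^ (c (n + m))`. -/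
theorem result : ∃ c : ℝ, 0 < c ∧ ∀ N : ℕ, ∃ (U H : Type) (_ : Fintype U) (_ : Fintype H)
    (_ : DecidableEq U) (_ : DecidableEq H) (G : Game U H) (L : ℕ) (path : ℕ → U → Finset H),
    N ≤ Fintype.card U + Fintype.card H ∧
    (2 : ℝ) ^ (c * (Fintype.card U + Fintype.card H : ℕ)) ≤ L ∧ IsPath G L path := by
  refine ⟨1 / 9, by norm_num, fun N => ?_⟩
  let k := N + 1
  have h := run (k := k) k 0 (fun _ => false) false (by omega) (by
    unfold inp
    rw [Finset.filter_eq_empty_iff.2 ?_]
    · simp
    · rintro w _ ⟨-, h, -⟩
      omega)
  obtain ⟨path, hpath⟩ := (cascade k).exists_path h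
  have hcard : Fintype.card (Fin k × Fin 3) + Fintype.card ((Fin k × Fin 3) × Bool) = 9 * k := by
    simp
    omega
  refine ⟨Fin k × Fin 3, (Fin k × Fin 3) × Bool, inferInstance, inferInstance, inferInstance,
    inferInstance, (cascade k).game, len k, path, ?_, ?_, hpath⟩
  · rw [hcard]
    omega
  · rw [hcard]
    have h1 : (1 / 9 : ℝ) * ((9 * k : ℕ) : ℝ) = (k : ℕ) := by
      push_cast
      ring
    rw [h1, Real.rpow_natCast]
    have h2 := len_eq k
    have h3 : 2 ≤ 2 ^ k := by
      calc 2 = 2 ^ 1 := rfl
        _ ≤ 2 ^ k := Nat.pow_le_pow_right (by norm_num) (by omega)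
    have h4 : 2 ^ k ≤ len k := by omega
    exact_mod_cast h4

end Pool.Agent.Results.MP_2a1065_lc.ExponentialPath
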